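import Pool.Agent.TH451.MB.Stmt

/-! Jobs MB-HALL1 and MB-HALL2 (project MP_9916e0_co of helper451). -/

set_option autoImplicit false
set_option linter.unusedVariables false

namespace Pool.Agent.TH929.MB

open Pool.Agent.TH451.MB Finset

/-- the common part of the two Hall conditions -/
theorem hall_common (V τ : Type) [Fintype V] [DecidableEq V] [Fintype τ] [DecidableEq τ]
    (G : SimpleGraph V) (H : Finset V) (F : Finset τ) (φ : τ → V)
    (hinj : Set.InjOn φ (F : Set τ)) (D : τ → ℕ) (W : Finset V)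
    (hWH : Disjoint W H) (hWφ : ∀ t ∈ F, φ t ∉ W)
    (hubs : Finset τ) (hhF : hubs ⊆ F) (hhc : hubs.card ≤ 3)
    (hhH : ∀ t ∈ F, φ t ∈ H → t ∈ hubs)
    (hsum : ∑ t ∈ F, D t = W.card)
    (d : ℕ) (hfew : (F.filter (fun t => d < D t)).card ≤ 39)
    (Δ a : ℕ) (hΔ : ∀ t ∈ F, D t ≤ Δ)
    (hdeg : ∀ t ∈ F, a ≤ (nb G (φ t) W).card)
    (hΔa : 10000 * Δ ≤ a) (X : Finset τ) (hX : X ⊆ F)
    (hlt : (nbs G (X.image φ) W).card < ∑ t ∈ X, D t) :
    ∃ (A U : Finset V), 10001 ≤ X.card ∧ X.card ≤ A.card + 3 ∧ Disjoint A H ∧ Disjoint U H ∧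
      Disjoint A U ∧ (∀ x ∈ A, ∀ u ∈ U, ¬ G.Adj x u) ∧ U ⊆ W ∧
      (∀ u ∈ U, ∀ t ∈ X, ¬ G.Adj (φ t) u) ∧
      ∑ t ∈ F \ X, D t < U.card ∧ W.card = ∑ t ∈ X, D t + ∑ t ∈ F \ X, D t ∧
      ∑ t ∈ X, D t ≤ 39 * Δ + X.card * d := by
  classical
  have hXne : X.Nonempty := by
    rw [Finset.nonempty_iff_ne_empty]
    rintro rfl
    simp at hlt
  have hsub : nbs G (X.image φ) W ⊆ W := by
    intro w hw
    exact (mem_nbs.1 hw).1
  have hbig : 10001 ≤ X.card := by
    by_contra hcon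
    push Not at hcon
    obtain ⟨t, ht⟩ := hXne
    have h1 : ∑ t ∈ X, D t ≤ X.card * Δ := by
      rw [← smul_eq_mul]
      exact Finset.sum_le_card_nsmul X D Δ (fun t ht => hΔ t (hX ht))
    have h2 : (nb G (φ t) W).card ≤ (nbs G (X.image φ) W).card := by
      apply Finset.card_le_card
      intro w hw
      rw [mem_nb] at hw
      rw [mem_nbs]
      exact ⟨hw.1, φ t, Finset.mem_image_of_mem φ ht, hw.2⟩
    have h3 := hdeg t (hX ht)
    have h4 : X.card * Δ ≤ 10000 * Δ := Nat.mul_le_mul_right _ (by omega)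
    omega
  have hsplit : W.card = ∑ t ∈ X, D t + ∑ t ∈ F \ X, D t := by
    rw [← hsum, add_comm, Finset.sum_sdiff hX]
  have hUcard : (W \ nbs G (X.image φ) W).card + (nbs G (X.image φ) W).card = W.card :=
    Finset.card_sdiff_add_card_eq_card hsub
  refine ⟨(X \ hubs).image φ, W \ nbs G (X.image φ) W, hbig, ?_, ?_, ?_, ?_, ?_, ?_, ?_, ?_,
    hsplit, ?_⟩
  · rw [Finset.card_image_of_injOn]
    · have := Finset.le_card_sdiff hubs X
      omega
    · intro x hx y hy hxy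
      rw [Finset.mem_coe, Finset.mem_sdiff] at hx hy
      exact hinj (Finset.mem_coe.2 (hX hx.1)) (Finset.mem_coe.2 (hX hy.1)) hxy
  · rw [Finset.disjoint_left]
    intro x hx hxH
    obtain ⟨t, ht, rfl⟩ := Finset.mem_image.1 hx
    rw [Finset.mem_sdiff] at ht
    exact ht.2 (hhH t (hX ht.1) hxH)
  · exact Finset.disjoint_of_subset_left Finset.sdiff_subset hWH
  · rw [Finset.disjoint_left]
    intro x hx hxU
    obtain ⟨t, ht, rfl⟩ := Finset.mem_image.1 hx
    rw [Finset.mem_sdiff] at ht hxU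
    exact hWφ t (hX ht.1) hxU.1
  · intro x hx u hu hadj
    obtain ⟨t, ht, rfl⟩ := Finset.mem_image.1 hx
    rw [Finset.mem_sdiff] at ht hu
    exact hu.2 (mem_nbs.2 ⟨hu.1, φ t, Finset.mem_image_of_mem φ ht.1, hadj⟩)
  · exact Finset.sdiff_subset
  · intro u hu t ht hadj
    rw [Finset.mem_sdiff] at hu
    exact hu.2 (mem_nbs.2 ⟨hu.1, φ t, Finset.mem_image_of_mem φ ht, hadj⟩)
  · omega
  · have h1 : ∑ t ∈ X, D t = ∑ t ∈ X.filter (fun t => d < D t), D t +
        ∑ t ∈ X.filter (fun t => ¬ d < D t), D t :=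
      (Finset.sum_filter_add_sum_filter_not X _ D).symm
    have h2 : ∑ t ∈ X.filter (fun t => d < D t), D t ≤ 39 * Δ := by
      have h3 : ∑ t ∈ X.filter (fun t => d < D t), D t ≤
          (X.filter (fun t => d < D t)).card * Δ := by
        rw [← smul_eq_mul]
        exact Finset.sum_le_card_nsmul _ D Δ (fun t ht => hΔ t (hX (Finset.mem_filter.1 ht).1))
      have h4 : (X.filter (fun t => d < D t)).card ≤ 39 :=
        (Finset.card_le_card (Finset.filter_subset_filter _ hX)).trans hfew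
      exact h3.trans (Nat.mul_le_mul_right _ h4)
    have h5 : ∑ t ∈ X.filter (fun t => ¬ d < D t), D t ≤ X.card * d := by
      have h6 : ∑ t ∈ X.filter (fun t => ¬ d < D t), D t ≤
          (X.filter (fun t => ¬ d < D t)).card * d := by
        rw [← smul_eq_mul]
        apply Finset.sum_le_card_nsmul
        intro t ht
        have := (Finset.mem_filter.1 ht).2
        omega
      exact h6.trans (Nat.mul_le_mul_right _ (Finset.card_filter_le _ _))
    omega

theorem hall1 : StHall1 := by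
  classical
  intro V τ _ _ _ _ G H s hG F φ hinj D W hWH hWφ hubs hhF hhc hhH hsum d hfew Δ a hΔ hdeg hn hΔa
    hΔW hsd hhd hdom X hX
  by_contra hcon
  push Not at hcon
  obtain ⟨A, U, hj, hAc, hAH, hUH, hAU, hno, hUW, hUX, hUc, hsplit, hsX⟩ :=
    hall_common V τ G H F φ hinj D W hWH hWφ hubs hhF hhc hhH hsum d hfew Δ a hΔ hdeg hΔa X hX hcon
  obtain ⟨w, hw⟩ : U.Nonempty := Finset.card_pos.1 (by omega)
  obtain ⟨h, hh, hadj⟩ := hdom w (hUW hw)
  have hhX : h ∉ X := fun hhX => hUX w hw h hhX hadj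
  have h1 : D h ≤ ∑ t ∈ F \ X, D t :=
    Finset.single_le_sum (f := D) (fun _ _ => Nat.zero_le _)
      (Finset.mem_sdiff.2 ⟨hhF hh, hhX⟩)
  have h2 := hhd h hh
  have h3 : ¬ (Fintype.card V ≤ A.card ^ 2 * U.card) := by
    intro h4
    obtain ⟨x, hx, u, hu, hxu⟩ := hG.p3 A U hAU hAH hUH (by omega) (by omega) h4
    exact hno x hx u hu hxu
  push Not at h3
  -- numbers
  generalize hk : A.card = k at *
  generalize hu : U.card = u at *
  generalize hjj : X.card = j at *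
  generalize hww : W.card = ww at *
  generalize hsx : ∑ t ∈ X, D t = sx at *
  generalize hsy : ∑ t ∈ F \ X, D t = sy at *
  have a1 : j * d ≤ (k + 3) * u := Nat.mul_le_mul hAc (by omega)
  have a2 : 361 * ww < 400 * ((k + 4) * u) := by
    have : (k + 4) * u = (k + 3) * u + u := by ring
    rw [this]
    omega
  have a3 : k ^ 2 * u < 2000 * ww := by omega
  have a4 : 361 * (k ^ 2 * u) < 800000 * ((k + 4) * u) := by omega
  have a5 : (361 * k ^ 2) * u < (800000 * (k + 4)) * u := by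
    calc (361 * k ^ 2) * u = 361 * (k ^ 2 * u) := by ring
      _ < 800000 * ((k + 4) * u) := a4
      _ = (800000 * (k + 4)) * u := by ring
  have a6 : 361 * k ^ 2 < 800000 * (k + 4) := lt_of_mul_lt_mul_right a5 (Nat.zero_le _)
  have a7 : 9998 ≤ k := by omega
  nlinarith

theorem hall2 : StHall2 := by
  classical
  intro V τ _ _ _ _ G H s hG F φ hinj D W hWH hWφ hubs hhF hhc hhH hsum d hfew Δ a hΔ hdeg hn hΔa
    hΔW hs hds hsW hmany X hX
  by_contra hcon
  push Not at hcon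
  obtain ⟨A, U, hj, hAc, hAH, hUH, hAU, hno, hUW, hUX, hUc, hsplit, hsX⟩ :=
    hall_common V τ G H F φ hinj D W hWH hWφ hubs hhF hhc hhH hsum d hfew Δ a hΔ hdeg hΔa X hX hcon
  obtain ⟨w, hw⟩ : U.Nonempty := Finset.card_pos.1 (by omega)
  obtain ⟨Y, hYF, hYc, hY⟩ := hmany w (hUW hw)
  have hYX : Y ⊆ F \ X := by
    intro t ht
    exact Finset.mem_sdiff.2 ⟨hYF ht, fun htX => hUX w hw t htX (hY t ht).2⟩
  have h1 : s ≤ ∑ t ∈ F \ X, D t := by
    calc s ≤ Y.card := hYc
      _ = ∑ t ∈ Y, 1 := by simp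
      _ ≤ ∑ t ∈ Y, D t := Finset.sum_le_sum fun t ht => (hY t ht).1
      _ ≤ ∑ t ∈ F \ X, D t := Finset.sum_le_sum_of_subset hYX
  have h3 : ¬ (Fintype.card V ≤ A.card ^ 2 * U.card) := by
    intro h4
    obtain ⟨x, hx, u, hu, hxu⟩ := hG.p3 A U hAU hAH hUH (by omega) (by omega) h4
    exact hno x hx u hu hxu
  push Not at h3
  have h4 : X.card * d ≤ X.card * s := Nat.mul_le_mul_left _ hds
  by_cases hc : 8 * s * X.card ≤ W.card
  · have h5 : 8 * (X.card * s) ≤ W.card := by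
      calc 8 * (X.card * s) = 8 * s * X.card := by ring
        _ ≤ W.card := hc
    have h6 : W.card ≤ 2 * U.card := by omega
    have h7 : 9998 ^ 2 * U.card ≤ A.card ^ 2 * U.card :=
      Nat.mul_le_mul_right _ (Nat.pow_le_pow_left (by omega) 2)
    omega
  · push Not at hc
    have h5 : s + 20000 < X.card := by
      have h6 : 8 * s * (s + 20000) < 8 * s * X.card := lt_of_le_of_lt hsW hc
      exact lt_of_mul_lt_mul_left h6 (Nat.zero_le _)
    obtain ⟨b, hb, hbU⟩ := hG.p2 U A hAU.symm hUH hAH (by omega) (by omega)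
    have h6 : nb G b U = ∅ := by
      rw [Finset.eq_empty_iff_forall_notMem]
      intro z hz
      rw [mem_nb] at hz
      exact hno b hb z hz.1 hz.2
    rw [h6, Finset.card_empty] at hbU
    omega

end Pool.Agent.TH929.MB
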